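import Pool.Agent.helper5.IH.Spec

set_option autoImplicit false

namespace Pool.Agent.IH

open Finset CT SYM

theorem SG1_card {α : Type} [Fintype α] (p : α → Prop) [DecidablePred p] :
    (Nat.card {a // p a} : ZMod 2) = ∑ a, if p a then (1 : ZMod 2) else 0 := by
  rw [Nat.card_eq_fintype_card, Fintype.card_subtype, Finset.card_filter]
  push_cast
  rfl

theorem SG1 (hCMP : CMP_stmt) : SG1_stmt := by
  classical
  intro V _ _ H v x y hxy hxv hyv
  have h1 : ∀ t : V → Fin 3, (pc H x y t : ZMod 2) =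
      ∑ σ : Equiv.Perm V, if (Pt H x y σ ∧ Cp t σ) then (1 : ZMod 2) else 0 := by
    intro t
    unfold pc
    exact SG1_card (fun σ : Equiv.Perm V => Pt H x y σ ∧ Cp t σ)
  have h2 : (∑ t : V → Fin 3, if t v = 0 then (pc H x y t : ZMod 2) else 0) =
      ∑ t : V → Fin 3, ∑ σ : Equiv.Perm V, if (t v = 0 ∧ Pt H x y σ ∧ Cp t σ) then (1 : ZMod 2) else 0 := by
    refine sum_congr rfl fun t _ => ?_
    by_cases h : t v = 0
    · rw [if_pos h, h1]
      refine sum_congr rfl fun σ _ => ?_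
      simp only [h, true_and]
    · rw [if_neg h]
      symm
      refine sum_eq_zero fun σ _ => ?_
      rw [if_neg]
      exact fun h' => h h'.1
  rw [h2, sum_comm]
  refine sum_eq_zero fun σ _ => ?_
  by_cases hP : Pt H x y σ ∧ σ v = v
  · have h3 := hCMP V {v} σ σ (by
      intro w hw
      rw [mem_singleton] at hw
      rw [hw]
      exact ⟨hP.2, hP.2⟩)
    have h4 : (∑ t : V → Fin 3, if (t v = 0 ∧ Pt H x y σ ∧ Cp t σ) then (1 : ZMod 2) else 0) =
        (Nat.card {t : V → Fin 3 // (∀ w ∈ ({v} : Finset V), t w = 0) ∧ Cp t σ ∧ Cp t σ} : ZMod 2) := by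
      rw [SG1_card (fun t : V → Fin 3 => (∀ w ∈ ({v} : Finset V), t w = 0) ∧ Cp t σ ∧ Cp t σ)]
      refine sum_congr rfl fun t _ => ?_
      refine if_congr ?_ rfl rfl
      constructor
      · rintro ⟨h5, _, h6⟩
        refine ⟨?_, h6, h6⟩
        intro w hw
        rw [mem_singleton] at hw
        rw [hw]
        exact h5
      · rintro ⟨h5, h6, _⟩
        exact ⟨h5 v (mem_singleton_self v), hP.1, h6⟩
    rw [h4, h3]
    have h5 : Nat.card {w : V // w ∉ ({v} : Finset V) ∧ (σ w = w ↔ σ w = w)} ≠ 0 := by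
      have : Nonempty {w : V // w ∉ ({v} : Finset V) ∧ (σ w = w ↔ σ w = w)} :=
        ⟨⟨x, by rw [mem_singleton]; exact hxv, Iff.rfl⟩⟩
      exact Nat.card_pos.ne'
    rw [Nat.cast_pow]
    have h6 : ((2 : ℕ) : ZMod 2) = 0 := by decide
    rw [h6, zero_pow h5]
  · refine sum_eq_zero fun t _ => ?_
    rw [if_neg]
    rintro ⟨h5, h6, h7⟩
    exact hP ⟨h6, (h7 v).1 h5⟩

end Pool.Agent.IH
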