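import Pool.Agent.helper5.IH.Spec2

set_option autoImplicit false

namespace Pool.Agent.IH
open Finset CT SYM

open scoped Classical in
private noncomputable def TLO_c {V : Type} {k : ℕ} (F : Fin k → SimpleGraph V) (a : Sym2 V) :
    Fin (k + 1) :=
  if h : ∃ i, a ∈ (F i).edgeSet then h.choose.castSucc else Fin.last k

private theorem TLO_c1 {V : Type} {k : ℕ} (F : Fin k → SimpleGraph V)
    (hd : ∀ i j, i ≠ j → ∀ u w, ¬ ((F i).Adj u w ∧ (F j).Adj u w)) (i : Fin k) (u w : V) :
    TLO_c F s(u, w) = i.castSucc ↔ (F i).Adj u w := by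
  unfold TLO_c
  split_ifs with h
  · have h1 := h.choose_spec
    rw [SimpleGraph.mem_edgeSet] at h1
    constructor
    · intro h2
      have h3 : h.choose = i := Fin.castSucc_injective k h2
      rw [← h3]; exact h1
    · intro h2
      by_contra h3
      exact hd h.choose i (fun h4 => h3 (by rw [h4])) u w ⟨h1, h2⟩
  · constructor
    · intro h2
      exact absurd h2.symm (Fin.castSucc_ne_last i)
    · intro h2
      exact absurd ⟨i, (SimpleGraph.mem_edgeSet _).2 h2⟩ h

private theorem TLO_c2 {V : Type} {k : ℕ} (F : Fin k → SimpleGraph V)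
    (hd : ∀ i j, i ≠ j → ∀ u w, ¬ ((F i).Adj u w ∧ (F j).Adj u w)) (u w : V) :
    TLO_c F s(u, w) = Fin.last k ↔ ∀ i, ¬ (F i).Adj u w := by
  constructor
  · intro h i hi
    rw [← TLO_c1 F hd] at hi
    rw [hi] at h
    exact Fin.castSucc_ne_last i h
  · intro h
    rcases Fin.eq_castSucc_or_eq_last (TLO_c F s(u, w)) with ⟨j, hj⟩ | hj
    · exact absurd ((TLO_c1 F hd j u w).1 hj) (h j)
    · exact hj

theorem TLO (hTP1 : TP1_stmt) : TLO_stmt := by
  intro V _ _ G k F h4 h7 hne hk hF hn he hd hr
  classical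
  have hEP : EvenPartition G (k + 1) (TLO_c F) := by
    have hE1 : ∀ (i : Fin k) (v : V),
        Nat.card {w // G.Adj v w ∧ TLO_c F s(v, w) = i.castSucc} = Nat.card {w // (F i).Adj v w} := by
      intro i v
      apply Nat.card_congr
      apply Equiv.subtypeEquivRight
      intro w
      rw [TLO_c1 F hd]
      exact ⟨fun h => h.2, fun h => ⟨hF i h, h⟩⟩
    refine ⟨?_, ?_⟩
    · intro i
      rcases Fin.eq_castSucc_or_eq_last i with ⟨j, rfl⟩ | rfl
      · obtain ⟨u, w, h⟩ := hn j
        exact ⟨u, w, hF j h, (TLO_c1 F hd j u w).2 h⟩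
      · obtain ⟨u, w, h, h'⟩ := hr
        exact ⟨u, w, h, (TLO_c2 F hd u w).2 h'⟩
    · intro i v
      rcases Fin.eq_castSucc_or_eq_last i with ⟨j, rfl⟩ | rfl
      · rw [hE1]; exact he j v
      · have hs : ∑ i : Fin (k + 1), Nat.card {w // G.Adj v w ∧ TLO_c F s(v, w) = i} = 4 := by
          rw [← h4 v]
          simp only [Nat.card_eq_fintype_card, Fintype.card_subtype]
          rw [Finset.card_eq_sum_card_fiberwise (f := fun w => TLO_c F s(v, w)) (t := univ)
            (fun _ _ => mem_coe.2 (mem_univ _))]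
          apply sum_congr rfl
          intro i _
          rw [Finset.filter_filter]
        rw [Fin.sum_univ_castSucc] at hs
        have h2 : Even (∑ i : Fin k, Nat.card {w // G.Adj v w ∧ TLO_c F s(v, w) = i.castSucc}) := by
          apply Finset.even_sum
          intro i _
          rw [hE1]; exact he i v
        have h3 : Even (4 : ℕ) := by decide
        rw [← hs, Nat.even_add] at h3
        exact h3.1 h2
  have hle : Nat.card {v // Shared G (TLO_c F) v} ≤ Nat.card {v // ∃ i w, (F i).Adj v w} := by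
    apply Nat.card_le_card_of_injective
      (fun v : {v // Shared G (TLO_c F) v} => (⟨v.1, ?_⟩ : {v // ∃ i w, (F i).Adj v w}))
    · intro v w h
      exact Subtype.ext (congrArg (fun x => x.1) h)
    · obtain ⟨v, w, w', h1, h2, h3⟩ := v
      rcases Fin.eq_castSucc_or_eq_last (TLO_c F s(v, w)) with ⟨j, hj⟩ | hj
      · exact ⟨j, w, (TLO_c1 F hd j v w).1 hj⟩
      · rcases Fin.eq_castSucc_or_eq_last (TLO_c F s(v, w')) with ⟨j, hj'⟩ | hj'
        · exact ⟨j, w', (TLO_c1 F hd j v w').1 hj'⟩
        · exact absurd (hj.trans hj'.symm) h3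
  have hU : Nat.card {v // ∃ i w, (F i).Adj v w} ≤ Fintype.card V := by
    rw [← Nat.card_eq_fintype_card]
    exact Nat.card_le_card_of_injective _ Subtype.val_injective
  rcases hTP1 V G (k + 1) (TLO_c F) h4 h7 hne hEP (by omega) with h | ⟨h1, h2⟩
  · left; omega
  · right; omega

end Pool.Agent.IH
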